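import Mathlib
import Pool.Agent.Helper93.ML.Window

/-!
# Module M5_ELine: the line of the preserved letter has small projections
-/

namespace Pool.Agent.Helper8.ML

open Pool.Agent.Helper93.ML

/-! ### words `e^k` -/

theorem red_replicate (k : ℕ) (e : Ltr) : Red (List.replicate k e) := by
  unfold Red
  induction k with
  | zero => exact .nil
  | succ k ih =>
    rw [List.replicate_succ]
    refine List.IsChain.cons ih ?_
    intro b hb h
    have h1 : b ∈ List.replicate k e := List.mem_of_mem_head? hb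
    have h2 := (List.mem_replicate.1 h1).2
    rw [h2] at h
    have h3 : e.2 = (inv1 e).2 := by rw [← h]
    simp [inv1] at h3

theorem invw_replicate (k : ℕ) (e : Ltr) :
    invw (List.replicate k e) = List.replicate k (inv1 e) := by
  simp [invw]

theorem infix_replicate {y : List Ltr} {k : ℕ} {e : Ltr} (h : y <:+: List.replicate k e) :
    y = List.replicate y.length e := by
  rw [List.eq_replicate_iff]
  refine ⟨rfl, fun b hb => ?_⟩
  exact (List.mem_replicate.1 (h.subset hb)).2

theorem sep_replicate_pos {cons : List (ℕ × ℕ)} (hc : ∀ c ∈ cons, 3 ≤ c.2 ∧ c.1 ≤ c.2) (k : ℕ) :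
    Sep cons (List.replicate k lc) := by
  intro c hcc y hy _ hl
  have h1 := infix_replicate hy
  have h2 := hc c hcc
  rw [h1]
  exact ⟨[], List.replicate (y.length - c.1) lc, by
    rw [List.nil_append, List.replicate_append_replicate]
    congr 1
    omega⟩

theorem sep_replicate_neg {cons : List (ℕ × ℕ)} (hc : ∀ c ∈ cons, 3 ≤ c.2 ∧ c.1 ≤ c.2) (k : ℕ)
    {e : Ltr} (he : ¬ (e.1 ≠ 3 ∧ e.2 = true)) : Sep cons (List.replicate k e) := by
  intro c hcc y hy hp hl
  exfalso
  have h2 := hc c hcc
  have h1 := infix_replicate hy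
  have h3 : e ∈ y := by
    rw [h1]
    refine List.mem_replicate.2 ⟨by omega, rfl⟩
  exact he (hp e h3)

theorem clean_replicate {cons : List (ℕ × ℕ)} (hc : ∀ c ∈ cons, 3 ≤ c.2 ∧ c.1 ≤ c.2) {e : Ltr}
    (he : e ∈ [lc, lt]) (k : ℕ) : Clean cons (List.replicate k e) := by
  refine ⟨red_replicate k e, ?_, ?_⟩
  · have : e = lc ∨ e = lt := by simpa using he
    rcases this with rfl | rfl
    · exact sep_replicate_pos hc k
    · exact sep_replicate_neg hc k (by simp)
  · rw [invw_replicate]
    apply sep_replicate_neg hc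
    have : e = lc ∨ e = lt := by simpa using he
    rcases this with rfl | rfl
    · simp [inv1]
    · simp [inv1]

/-! ### two consecutive letters `t` -/

theorem chain_mid {c : List Ltr} {x y : Ltr} (hc : ∀ a ∈ c, a.1 ≠ 3) (hne : c ≠ []) :
    List.IsChain (fun a b : Ltr => ¬ (a.1 = 3 ∧ b.1 = 3)) (x :: (c ++ [y])) := by
  have h1 : ∀ c : List Ltr, (∀ a ∈ c, a.1 ≠ 3) →
      List.IsChain (fun a b : Ltr => ¬ (a.1 = 3 ∧ b.1 = 3)) (c ++ [y]) := by
    intro c
    induction c with
    | nil => intro _; exact .singleton _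
    | cons a c ih =>
      intro h
      rw [List.cons_append]
      refine List.IsChain.cons (ih (fun b hb => h b (List.mem_cons_of_mem _ hb))) ?_
      intro b _ hb
      exact h a (by simp) hb.1
  refine List.IsChain.cons (h1 c hc) ?_
  intro b hb h
  rw [List.head?_append_of_ne_nil _ hne] at hb
  exact hc b (List.mem_of_mem_head? hb) h.2

theorem no_two {c : List Ltr} {x y a : Ltr} (hc : ∀ a ∈ c, a.1 ≠ 3) (hne : c ≠ []) (ha : a.1 = 3)
    {ρ : ℕ} (hρ : 2 ≤ ρ) : ¬ (List.replicate ρ a <:+: x :: (c ++ [y])) := by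
  intro h
  have h1 : [a, a] <:+: List.replicate ρ a := ⟨[], List.replicate (ρ - 2) a, by
    obtain ⟨r, rfl⟩ : ∃ r, ρ = r + 2 := ⟨ρ - 2, by omega⟩
    simp [List.replicate_succ]⟩
  obtain ⟨s, t, hst⟩ := h1.trans h
  have h2 := chain_mid (x := x) (y := y) hc hne
  rw [← hst] at h2
  have h3 := (List.IsChain.left_of_append h2).right_of_append
  rw [List.isChain_cons_cons] at h3
  exact h3.1 ⟨ha, ha⟩

/-! ### windows with at most one junction -/

theorem half_window (l n : ℕ) (x0 : ℤ) (W : ℕ) (hW : W ≤ l) (hl : l ≤ n) :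
    ∃ (q : ℤ) (s k : ℕ), x0 ≤ q * ((l + n + 2 : ℕ) : ℤ) + s ∧
      q * ((l + n + 2 : ℕ) : ℤ) + s + k ≤ x0 + W ∧ W ≤ 2 * k + 1 ∧
      (s + k ≤ l ∨ (l ≤ s ∧ s + k ≤ l + n + 2)) := by
  set T : ℤ := ((l + n + 2 : ℕ) : ℤ) with hT
  have hTpos : 0 < T := by rw [hT]; positivity
  set q := x0 / T with hq
  have e1 := Int.mul_ediv_add_emod x0 T
  have e2 := Int.emod_nonneg x0 hTpos.ne'
  have e3 := Int.emod_lt_of_pos x0 hTpos
  rw [← hq] at e1
  obtain ⟨r, hr⟩ := Int.eq_ofNat_of_zero_le e2
  rw [hr] at e1 e3
  have e4 : T * q = q * T := mul_comm _ _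
  have e5 : (q + 1) * T = q * T + T := by ring
  push_cast at hT
  have hrT : r < l + n + 2 := by
    rw [hT] at e3; omega
  by_cases h1 : r + W ≤ l
  · exact ⟨q, r, W, by omega, by omega, by omega, Or.inl h1⟩
  by_cases h2 : r < l
  · -- junction at `l`
    by_cases h3 : W ≤ 2 * (l - r) + 1
    · exact ⟨q, r, l - r, by omega, by omega, by omega, Or.inl (by omega)⟩
    · exact ⟨q, l, r + W - l, by omega, by omega, by omega, Or.inr ⟨le_rfl, by omega⟩⟩
  by_cases h3 : r + W ≤ l + n + 2
  · exact ⟨q, r, W, by omega, by omega, by omega, Or.inr ⟨by omega, h3⟩⟩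
  -- junction at `T`
  by_cases h4 : W ≤ 2 * (l + n + 2 - r) + 1
  · exact ⟨q, r, l + n + 2 - r, by omega, by omega, by omega, Or.inr ⟨by omega, by omega⟩⟩
  · refine ⟨q + 1, 0, r + W - (l + n + 2), ?_, ?_, by omega, Or.inl (by omega)⟩
    · rw [e5]; push_cast; omega
    · rw [e5]
      have : ((r + W - (l + n + 2) : ℕ) : ℤ) = r + W - (l + n + 2) := by omega
      push_cast at *
      omega

theorem take_drop_infix (R : List Ltr) (s k : ℕ) : (R.drop s).take k <:+: R :=
  (List.take_prefix _ _).isInfix.trans (List.drop_suffix _ _).isInfix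

section
variable {G : Type} [Group G] {M : Mark G} {cons : List (ℕ × ℕ)} {δ : ℕ} (V : Lvl M cons δ)

theorem rel_infix_left {w : List Ltr} (hw : w ∈ V.K) {s k : ℕ} (h : s + k ≤ V.l) :
    ((V.rel w).drop s).take k <:+: w := by
  have hl := (V.hK w hw).1
  have e : ((V.rel w).drop s).take k = (w.drop s).take k := by
    unfold Lvl.rel
    rw [List.drop_append_of_le_length (by omega), List.take_append_of_le_length]
    rw [List.length_drop]
    omega
  rw [e]
  exact take_drop_infix _ _ _

theorem rel_infix_right {w : List Ltr} (hw : w ∈ V.K) {s k : ℕ} (h : V.l ≤ s) :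
    ((V.rel w).drop s).take k <:+: V.x w :: (V.code w ++ [V.y w]) := by
  have hl := (V.hK w hw).1
  have e : (V.rel w).drop s = (V.x w :: (V.code w ++ [V.y w])).drop (s - V.l) := by
    unfold Lvl.rel
    conv_lhs => rw [show s = V.l + (s - V.l) by omega]
    rw [← List.drop_drop, List.drop_left' hl]
  rw [e]
  exact take_drop_infix _ _ _

end

theorem eline (hMatch : StmtM5Match) : StmtM5ELine := by
  intro G _ M cons δ hinv κ
  obtain ⟨Λ, hΛ⟩ := hMatch G M cons δ hinv (22 * κ)
  refine ⟨88 * κ + 4 * Λ + 4, ?_⟩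
  intro V L hR hLκ hθ hln e he ρ hρ hp hl hK v i j
  have hκ1 := L.hκ
  rw [hLκ] at hκ1
  -- wlog `i ≤ j`
  wlog hij : i ≤ j generalizing i j with H
  · rw [L.dv_symm]
    exact H j i (by omega)
  by_contra hcon
  have hcl : ∀ k, Clean cons (List.replicate k e) := clean_replicate hinv.cons_ok he
  have hlen : ∀ k : ℕ, M.len (M.s e ^ k) = k := fun k => by
    have := hinv.geod _ (hcl k)
    rwa [M.ev_replicate, List.length_replicate] at this
  obtain ⟨n, hn⟩ := Int.le.dest hij
  set f : ℕ → G := fun m => M.s e ^ (i + m) with hf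
  have hfd : ∀ a b : ℕ, a ≤ b → M.d (f a) (f b) = b - a := by
    intro a b hab
    have e1 : f b = f a * M.s e ^ (b - a) := by
      simp only [hf]
      rw [← zpow_natCast, ← zpow_add]
      congr 1
      omega
    rw [e1, M.d_mul_right_self, hlen]
  have hpath : IsPath M.d f n := by
    intro m _
    rw [hfd m (m + 1) (by omega)]
    omega
  have hstr : Str M.d f n 0 := by
    intro a b c hab hbc _
    rw [hfd a b hab, hfd b c hbc, hfd a c (by omega)]
    omega
  have hf0 : f 0 = M.s e ^ i := by simp [hf]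
  have hfn : f n = M.s e ^ j := by
    simp only [hf]
    rw [hn]
  have hτ : L.τ = V.l + V.n + 2 := by
    rw [← L.lenR v.1, hR, V.rel_length v.1.2]
  -- the window
  set W : ℕ := 4 * ρ + (88 * κ + 4 * Λ + 4) with hW
  set x0 : ℤ := min (L.pr v (M.s e ^ i)) (L.pr v (M.s e ^ j)) with hx0
  obtain ⟨q, s, k, h1, h2, h3, h4⟩ := half_window V.l V.n x0 W (by omega) hln
  have hdv : W < (L.pr v (M.s e ^ i) - L.pr v (M.s e ^ j)).natAbs := by
    have : ¬ (L.pr v (M.s e ^ i) - L.pr v (M.s e ^ j)).natAbs ≤ W := hcon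
    omega
  have hnear : ∀ x : ℤ, x0 ≤ x → x ≤ x0 + W →
      ∃ y ≤ n, M.d (L.ax v x) (f y) ≤ 22 * κ := by
    intro x hx1 hx2
    have hbig : 20 * L.κ < L.dv v (M.s e ^ i) (M.s e ^ j) := by
      unfold Lines.dv
      rw [hLκ]
      omega
    obtain ⟨y, hy, hd⟩ := L.near v hpath hstr hf0 hfn hbig (x := x) (by
      rcases le_total (L.pr v (M.s e ^ i)) (L.pr v (M.s e ^ j)) with h | h
      · left
        rw [min_eq_left h] at hx0
        omega
      · right
        rw [min_eq_right h] at hx0
        omega)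
    refine ⟨y, hy, ?_⟩
    rw [hLκ] at hd
    omega
  set z' : List Ltr := ((V.rel v.1).drop s).take k with hz'
  have hsk : s + k ≤ L.τ := by
    rw [hτ]
    rcases h4 with h4 | h4 <;> omega
  have hread := L.ax_read v q s k hsk
  rw [hR, ← hz', hτ] at hread
  have hz'len : z'.length = k := by
    rw [hz', List.length_take, List.length_drop, V.rel_length v.1.2]
    omega
  have hVn : 1 ≤ V.n := by omega
  have hz'gd : M.Gd z' := by
    rcases h4 with h4 | h4
    · refine Mark.Gd.sub ?_ (rel_infix_left V v.1.2 h4)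
      unfold Mark.Gd
      rw [(V.hK v.1 v.1.2).2, (V.hK v.1 v.1.2).1]
    · exact (V.u_geod v.1.2 hVn).sub (rel_infix_right V v.1.2 h4.1)
  -- no forbidden infix
  have hnoe : ¬ (List.replicate ρ e <:+: z') := by
    intro hc
    have he' : e = lc ∨ e = lt := by simpa using he
    rcases h4 with h4 | h4
    · exact (hK v.1 v.1.2).1 (hc.trans (rel_infix_left V v.1.2 h4))
    · have h5 := hc.trans (rel_infix_right V v.1.2 h4.1)
      have hlw := (V.hK v.1 v.1.2).1
      rcases he' with rfl | rfl
      · have h6 := pos_mid (V.x3 v.1) (V.y3 v.1) h5 (by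
          intro x hx
          rw [(List.mem_replicate.1 hx).2]
          simp)
        refine V.isCode.nop v.1 hlw (List.IsInfix.trans ?_ h6)
        exact ⟨[], List.replicate (ρ - V.p) lc, by
          rw [List.nil_append, List.replicate_append_replicate]
          congr 1
          have := hp rfl
          omega⟩
      · refine no_two ?_ ?_ ?_ hρ h5
        · intro a ha
          exact (V.isCode.pos v.1 hlw a ha).1
        · intro h
          have := V.isCode.len v.1 hlw
          rw [h] at this
          simp at this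
          omega
        · simp
  have hnoe' : ¬ (List.replicate ρ (inv1 e) <:+: z') := by
    intro hc
    have he' : e = lc ∨ e = lt := by simpa using he
    rcases h4 with h4 | h4
    · exact (hK v.1 v.1.2).2 (hc.trans (rel_infix_left V v.1.2 h4))
    · have h5 := hc.trans (rel_infix_right V v.1.2 h4.1)
      have hlw := (V.hK v.1 v.1.2).1
      rcases he' with rfl | rfl
      · have h6 : inv1 lc ∈ V.x v.1 :: (V.code v.1 ++ [V.y v.1]) :=
          h5.subset (List.mem_replicate.2 ⟨by omega, rfl⟩)
        rw [List.mem_cons, List.mem_append, List.mem_singleton] at h6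
        rcases h6 with h6 | h6 | h6
        · have := V.x3 v.1
          rw [← h6] at this
          simp [inv1] at this
        · have := (V.isCode.pos v.1 hlw _ h6).2
          simp [inv1] at this
        · have := V.y3 v.1
          rw [← h6] at this
          simp [inv1] at this
      · refine no_two ?_ ?_ ?_ hρ h5
        · intro a ha
          exact (V.isCode.pos v.1 hlw a ha).1
        · intro h
          have := V.isCode.len v.1 hlw
          rw [h] at this
          simp at this
          omega
        · simp [inv1]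
  -- the ends
  obtain ⟨y1, hy1, hd1⟩ := hnear (q * ((V.l + V.n + 2 : ℕ) : ℤ) + s) h1 (by omega)
  obtain ⟨y2, hy2, hd2⟩ := hnear (q * ((V.l + V.n + 2 : ℕ) : ℤ) + s + k) (by omega) h2
  rw [hread] at hd2
  set P' : G := L.ax v (q * ((V.l + V.n + 2 : ℕ) : ℤ) + s) with hP'
  have hkd : M.d P' (P' * M.ev z') = k := by
    rw [M.d_mul_right_self]
    rw [← hz'len]
    exact hz'gd
  have t1 := M.isGeo.tri P' (f y1) (P' * M.ev z')
  have t2 := M.isGeo.tri (f y1) (f y2) (P' * M.ev z')
  have s1 := M.isGeo.symm P' (f y1)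
  have s2 := M.isGeo.symm (P' * M.ev z') (f y2)
  rcases le_total y1 y2 with hy | hy
  · have hdy := hfd y1 y2 hy
    have hfy : f y1 * M.ev (List.replicate (y2 - y1) e) = f y2 := by
      rw [M.ev_replicate]
      simp only [hf]
      rw [← zpow_natCast, ← zpow_add]
      congr 1
      omega
    obtain ⟨j₀, g1, g2, _⟩ := hΛ (List.replicate (y2 - y1) e) z' (f y1) P' (hcl _) hz'gd
      (by omega) (by rw [hfy]; omega) (by rw [List.length_replicate]; omega)
    rw [List.length_replicate] at g1 g2
    apply hnoe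
    have g3 : (List.replicate (y2 - y1) e).drop Λ = List.replicate (y2 - y1 - Λ) e := by simp
    rw [g3, List.take_replicate] at g2
    have g4 : List.replicate ρ e <:+: List.replicate (min (y2 - y1 - 2 * Λ) (y2 - y1 - Λ)) e :=
      ⟨[], List.replicate (min (y2 - y1 - 2 * Λ) (y2 - y1 - Λ) - ρ) e, by
        rw [List.nil_append, List.replicate_append_replicate]
        congr 1
        omega⟩
    rw [g2] at g4
    exact g4.trans (take_drop_infix _ _ _)
  · have hdy := hfd y2 y1 hy
    have s3 := M.isGeo.symm (f y1) (f y2)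
    have hfy : f y1 * M.ev (List.replicate (y1 - y2) (inv1 e)) = f y2 := by
      rw [M.ev_replicate, M.s_inv]
      simp only [hf]
      rw [inv_pow, ← zpow_natCast, ← zpow_neg, ← zpow_add]
      congr 1
      omega
    have hcl' : Clean cons (List.replicate (y1 - y2) (inv1 e)) := by
      have := clean_invw (hcl (y1 - y2))
      rwa [invw_replicate] at this
    obtain ⟨j₀, g1, g2, _⟩ := hΛ (List.replicate (y1 - y2) (inv1 e)) z' (f y1) P' hcl' hz'gd
      (by omega) (by rw [hfy]; omega) (by rw [List.length_replicate]; omega)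
    rw [List.length_replicate] at g1 g2
    apply hnoe'
    have g3 : (List.replicate (y1 - y2) (inv1 e)).drop Λ =
        List.replicate (y1 - y2 - Λ) (inv1 e) := by simp
    rw [g3, List.take_replicate] at g2
    have g4 : List.replicate ρ (inv1 e) <:+:
        List.replicate (min (y1 - y2 - 2 * Λ) (y1 - y2 - Λ)) (inv1 e) :=
      ⟨[], List.replicate (min (y1 - y2 - 2 * Λ) (y1 - y2 - Λ) - ρ) (inv1 e), by
        rw [List.nil_append, List.replicate_append_replicate]
        congr 1
        omega⟩
    rw [g2] at g4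
    exact g4.trans (take_drop_infix _ _ _)

end Pool.Agent.Helper8.ML
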